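import Mathlib
import Pool.Agent.Lib.MP_103b79_co.Defs
import Pool.Agent.Lib.MP_103b79_co.CubeClass

open Set Module Pool.Agent.Lib.MP_103b79_co

namespace Pool.Agent.Results.MP_103b79_co.CubeFaces

/-- `P` has an `m`-dimensional face that is a combinatorial cube: there are distinct points `x R`
(`R` a subset of `{1, …, m}`) such that, for `S ⊆ T`, the convex hull of the `x R` with
`S ⊆ R ⊆ T` is a face of `P` of dimension `|T \ S|`. -/
def HasCubeFace {d : ℕ} (m : ℕ) (P : Set (EuclideanSpace ℝ (Fin d))) : Prop :=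
  ∃ x : Finset (Fin m) → EuclideanSpace ℝ (Fin d), CubeFace P x

/-- `P` is a (regular) `d`-dimensional cube: `P = {p + ∑ tᵢ bᵢ : 0 ≤ tᵢ ≤ 1}` with nonzero,
pairwise orthogonal vectors `bᵢ` of equal length. -/
def IsCube {d : ℕ} (P : Set (EuclideanSpace ℝ (Fin d))) : Prop :=
  ∃ (p : EuclideanSpace ℝ (Fin d)) (b : Fin d → EuclideanSpace ℝ (Fin d)),
    (∀ i, b i ≠ 0) ∧ (∀ i j, i ≠ j → inner ℝ (b i) (b j) = 0) ∧ (∀ i j, ‖b i‖ = ‖b j‖) ∧
      P = {z | ∃ t : Fin d → ℝ, (∀ i, 0 ≤ t i ∧ t i ≤ 1) ∧ z = p + ∑ i, t i • b i}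

/-- A `k`-face-transitive polytope (`k ≥ 2`) with a combinatorial cube face of dimension at least
`M(k)` is a cube. -/
theorem result (k : ℕ) (hk2 : 2 ≤ k) : ∃ M : ℕ, ∀ (d : ℕ) (P : Set (EuclideanSpace ℝ (Fin d))),
    IsPolytope P → FaceTransitive k P → ∀ m, M ≤ m → HasCubeFace m P → IsCube P := by
  obtain ⟨M, hM⟩ := cube_class k hk2
  refine ⟨M, ?_⟩
  rintro d P hP hk m hm ⟨x, hx⟩
  have hPd : dimOf P = d := by
    rw [dimOf, ← direction_affineSpan, hP.2, AffineSubspace.direction_top, finrank_top,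
      finrank_euclideanSpace_fin]
  obtain ⟨⟨V, hV⟩, -⟩ := hP
  exact hM d m P x hm ⟨V, V.finite_toSet, hV⟩ hPd hk hx

end Pool.Agent.Results.MP_103b79_co.CubeFaces
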