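import Mathlib
import Pool.Agent.Lib.MP_103b79_co.Defs
import Pool.Agent.Lib.MP_103b79_co.Vertices

open Set Module Pool.Agent.Lib.MP_103b79_co

namespace Pool.Agent.Results.MP_103b79_co.PyramidFace

/-- If a `k`-face-transitive polytope has a face of dimension at least `k + 1` that is a pyramid,
then it is vertex-transitive. -/
theorem result {d k : ℕ} (P Q A : Set (EuclideanSpace ℝ (Fin d)))
    (v0 : EuclideanSpace ℝ (Fin d)) (hP : IsPolytope P) (hk : FaceTransitive k P)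
    (hQ : IsFace P Q) (hQk : k + 1 ≤ dimOf Q) (hA : IsFace P A)
    (hv0 : v0 ∈ P.extremePoints ℝ) (hv0Q : v0 ∈ Q) (hv0A : v0 ∉ A)
    (hrest : ∀ v ∈ P.extremePoints ℝ, v ∈ Q → v ≠ v0 → v ∈ A) : FaceTransitive 0 P := by
  obtain ⟨⟨V, hV⟩, -⟩ := hP
  exact vertex_main ⟨V, V.finite_toSet, hV⟩ hk hQ hQk hA hv0 hv0Q hv0A hrest

end Pool.Agent.Results.MP_103b79_co.PyramidFace
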