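import Mathlib
import Pool.Agent.Lib.MP_103b79_co.Defs
import Pool.Agent.Lib.MP_103b79_co.Facets

open Set Module Pool.Agent.Lib.MP_103b79_co

namespace Pool.Agent.Results.MP_103b79_co.SimpleFace

/-- If exactly one facet `F0` of a `k`-face-transitive polytope contains the face `G` and not the
larger face `A`, where `A` has dimension at most `k`, then the polytope is facet-transitive. -/
theorem result {d k : ℕ} (hk1 : 1 ≤ k) (hkd : k + 1 ≤ d)
    (P G A F0 : Set (EuclideanSpace ℝ (Fin d))) (hP : IsPolytope P) (hk : FaceTransitive k P)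
    (hG : G = ∅ ∨ IsFace P G) (hA : IsFace P A) (hGA : G ⊆ A) (hAk : dimOf A ≤ k)
    (hF0 : IsFace P F0) (hF0d : dimOf F0 = d - 1) (hGF0 : G ⊆ F0) (hAF0 : ¬ A ⊆ F0)
    (hrest : ∀ F, IsFace P F → dimOf F = d - 1 → G ⊆ F → F ≠ F0 → A ⊆ F) :
    FaceTransitive (d - 1) P := by
  have hPd : dimOf P = d := by
    rw [dimOf, ← direction_affineSpan, hP.2, AffineSubspace.direction_top, finrank_top,
      finrank_euclideanSpace_fin]
  obtain ⟨⟨V, hV⟩, -⟩ := hP
  have h := facet_main (k := k) (P := P) (G := G) (A := A) (F0 := F0) ⟨V, V.finite_toSet, hV⟩ hk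
    hk1 (by omega) hG hA hGA hAk ⟨hF0, by omega, hGF0⟩ hAF0
    (fun F hF hne => hrest F hF.1 (by have := hF.2.1; omega) hF.2.2 hne)
  intro F F' h1 h2 h3 h4
  exact h F F' ⟨h1, by omega, empty_subset _⟩ ⟨h3, by omega, empty_subset _⟩

end Pool.Agent.Results.MP_103b79_co.SimpleFace
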