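import Mathlib
import Pool.Agent.Lib.MP_103b79_co.Defs
import Pool.Agent.Lib.MP_103b79_co.CsFacet

open Set Module Pool.Agent.Lib.MP_103b79_co

namespace Pool.Agent.Results.MP_103b79_co.SymmetricTwoFaces

/-- Let `2 ≤ k < d` and let `P` be a `k`-face-transitive `d`-polytope. If all two-dimensional
faces of some `k`-dimensional face `H` of `P` are centrally symmetric, then `P` is
facet-transitive. -/
theorem result {d k : ℕ} (hk2 : 2 ≤ k) (hkd : k < d)
    (P H : Set (EuclideanSpace ℝ (Fin d))) (hP : IsPolytope P) (hk : FaceTransitive k P)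
    (hH : IsFace P H) (hHk : dimOf H = k)
    (hcs : ∀ R ⊆ H, IsFace P R → dimOf R = 2 →
      ∃ q : EuclideanSpace ℝ (Fin d), ∀ x ∈ R, q - x ∈ R) :
    FaceTransitive (d - 1) P := by
  have hPd : dimOf P = d := by
    rw [dimOf, ← direction_affineSpan, hP.2, AffineSubspace.direction_top, finrank_top,
      finrank_euclideanSpace_fin]
  obtain ⟨⟨V, hV⟩, -⟩ := hP
  exact cs_facet ⟨V, V.finite_toSet, hV⟩ hPd hk2 hkd hk hH hHk hcs

end Pool.Agent.Results.MP_103b79_co.SymmetricTwoFaces
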